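import Mathlib

namespace Pool.Agent.Results.MP_a6ecd6_co.Counter

/-- A `d`-dimensional latin hypercube of order `n`. -/
def IsLatin {d n : ℕ} (Q : (Fin d → Fin n) → Fin n) : Prop :=
  ∀ (i : Fin d) (x : Fin d → Fin n), Function.Bijective fun a => Q (Function.update x i a)

/-- A `k`-multiplex of `Q`. -/
def IsMultiplex {d n : ℕ} (Q : (Fin d → Fin n) → Fin n) (k : ℕ) (K : Multiset (Fin d → Fin n)) :
    Prop :=
  K.card = k * n ∧ (∀ (i : Fin d) (a : Fin n), (K.filter fun x => x i = a).card = k) ∧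
    ∀ s : Fin n, (K.filter fun x => Q x = s).card = k

/-- A `k`-plex of `Q`. -/
def IsPlex {d n : ℕ} (Q : (Fin d → Fin n) → Fin n) (k : ℕ) (K : Multiset (Fin d → Fin n)) : Prop :=
  IsMultiplex Q k K ∧ K.Nodup

def L : Fin 6 → Fin 6 → Fin 6 := ![![3, 1, 4, 2, 5, 0], ![5, 0, 2, 4, 3, 1], ![4, 5, 1, 3, 0, 2], ![0, 2, 3, 1, 4, 5], ![2, 4, 5, 0, 1, 3], ![1, 3, 0, 5, 2, 4]]

def Q0 (x : Fin 2 → Fin 6) : Fin 6 := L (x 0) (x 1)

def K0 : Multiset (Fin 2 → Fin 6) := (([![0, 0], ![1, 1], ![2, 2], ![3, 3], ![4, 4], ![5, 5], ![0, 0], ![1, 1], ![2, 2], ![3, 3], ![4, 5], ![5, 4], ![0, 0], ![1, 1], ![2, 3], ![3, 4], ![4, 2], ![5, 5], ![0, 2], ![1, 0], ![2, 1], ![3, 5], ![4, 3], ![5, 4], ![0, 2], ![1, 0], ![2, 5], ![3, 1], ![4, 3], ![5, 4]] : List (Fin 2 → Fin 6)) : Multiset _)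

theorem latin : IsLatin Q0 := by
  unfold IsLatin
  decide +kernel

theorem mult : IsMultiplex Q0 5 K0 := by
  unfold IsMultiplex
  decide +kernel

def ok (r c r' c' : Fin 6) : Bool := c != c' && L r c != L r' c'

theorem notr : ∀ c0 : Fin 6, ∀ c1 : Fin 6, (ok 0 c0 1 c1) = true → ∀ c2 : Fin 6, (ok 0 c0 2 c2 && ok 1 c1 2 c2) = true → ∀ c3 : Fin 6, (ok 0 c0 3 c3 && ok 1 c1 3 c3 && ok 2 c2 3 c3) = true → ∀ c4 : Fin 6, (ok 0 c0 4 c4 && ok 1 c1 4 c4 && ok 2 c2 4 c4 && ok 3 c3 4 c4) = true → ∀ c5 : Fin 6, (ok 0 c0 5 c5 && ok 1 c1 5 c5 && ok 2 c2 5 c5 && ok 3 c3 5 c5 && ok 4 c4 5 c5) = true → False := by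
  decide +kernel

theorem c1 : ∀ (i : Fin 2) (a : Fin 6),
    (Finset.univ.filter fun x : Fin 2 → Fin 6 => x i = a).card = 6 := by decide +kernel

theorem c2 : ∀ (a : Fin 6),
    (Finset.univ.filter fun x : Fin 2 → Fin 6 => Q0 x = a).card = 6 := by decide +kernel

theorem compl (S : Finset (Fin 2 → Fin 6)) (p : (Fin 2 → Fin 6) → Prop) [DecidablePred p]
    (h1 : (Finset.univ.filter p).card = 6) (h2 : (S.filter p).card = 5) :
    (Sᶜ.filter p).card = 1 := by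
  have : (Finset.univ.filter p).card = (S.filter p).card + (Sᶜ.filter p).card := by
    rw [← Finset.card_union_of_disjoint (Finset.disjoint_filter_filter disjoint_compl_right),
      ← Finset.filter_union, Finset.union_compl]
  omega

theorem result : ∃ (d n k : ℕ) (Q : (Fin d → Fin n) → Fin n), 2 ≤ d ∧ 1 ≤ n ∧ 1 ≤ k ∧
    k ≤ n ^ (d - 1) ∧ IsLatin Q ∧ (∃ K, IsMultiplex Q k K) ∧ ¬ ∃ K, IsPlex Q k K := by
  refine ⟨2, 6, 5, Q0, by norm_num, by norm_num, by norm_num, by norm_num, latin, ⟨K0, mult⟩, ?_⟩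
  rintro ⟨K, ⟨_, h2, h3⟩, hn⟩
  let S : Finset (Fin 2 → Fin 6) := ⟨K, hn⟩
  have a1 : ∀ (i : Fin 2) (a : Fin 6), (Sᶜ.filter fun x => x i = a).card = 1 := fun i a =>
    compl S _ (c1 i a) (h2 i a)
  have a2 : ∀ (a : Fin 6), (Sᶜ.filter fun x => Q0 x = a).card = 1 := fun a =>
    compl S _ (c2 a) (h3 a)
  have : ∀ r : Fin 6, ∃ x ∈ Sᶜ, x 0 = r := fun r => by
    obtain ⟨x, hx⟩ := Finset.card_pos.1 (by rw [a1 0 r]; norm_num : 0 < (Sᶜ.filter fun x => x 0 = r).card)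
    exact ⟨x, (Finset.mem_filter.1 hx).1, (Finset.mem_filter.1 hx).2⟩
  choose f hf1 hf2 using this
  have hc : ∀ r r' : Fin 6, r ≠ r' → f r 1 ≠ f r' 1 := by
    intro r r' hr e
    apply hr
    have := Finset.card_le_one.1 (a1 1 (f r' 1)).le (f r) (Finset.mem_filter.2 ⟨hf1 r, e⟩) (f r')
      (Finset.mem_filter.2 ⟨hf1 r', rfl⟩)
    rw [← hf2 r, this, hf2 r']
  have hs : ∀ r r' : Fin 6, r ≠ r' → L r (f r 1) ≠ L r' (f r' 1) := by
    intro r r' hr e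
    apply hr
    have e' : Q0 (f r) = Q0 (f r') := by
      unfold Q0
      rw [hf2 r, hf2 r']
      exact e
    have := Finset.card_le_one.1 (a2 (Q0 (f r'))).le (f r) (Finset.mem_filter.2 ⟨hf1 r, e'⟩) (f r')
      (Finset.mem_filter.2 ⟨hf1 r', rfl⟩)
    rw [← hf2 r, this, hf2 r']
  have hk : ∀ r r' : Fin 6, r ≠ r' → ok r (f r 1) r' (f r' 1) = true := fun r r' h => by
    simp [ok, hc r r' h, hs r r' h]
  exact notr (f 0 1) (f 1 1) (hk 0 1 (by decide)) (f 2 1) (by simp only [Bool.and_eq_true]; exact ⟨hk 0 2 (by decide), hk 1 2 (by decide)⟩) (f 3 1) (by simp only [Bool.and_eq_true]; exact ⟨⟨hk 0 3 (by decide), hk 1 3 (by decide)⟩, hk 2 3 (by decide)⟩) (f 4 1) (by simp only [Bool.and_eq_true]; exact ⟨⟨⟨hk 0 4 (by decide), hk 1 4 (by decide)⟩, hk 2 4 (by decide)⟩, hk 3 4 (by decide)⟩) (f 5 1) (by simp only [Bool.and_eq_true]; exact ⟨⟨⟨⟨hk 0 5 (by decide), hk 1 5 (by decide)⟩,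 hk 2 5 (by decide)⟩, hk 3 5 (by decide)⟩, hk 4 5 (by decide)⟩)

end Pool.Agent.Results.MP_a6ecd6_co.Counter
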